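import Pool.Agent.Helper73.HU.St
import Pool.Agent.Helper29.HM.NM
import Pool.Agent.Helper73.HM.Fin

/-! # HU module UU: the ultrafilter of an atom -/

namespace Pool.Agent.Helper48.HU.UU

open Ordinal Cardinal ZFSet Order Pool.Agent.Helper73.HODC Pool.Agent.Helper73.HE
open Pool.Agent.Helper73.HM Pool.Agent.Helper73.HU
open Pool.Agent.Helper29.HM.NM

/-- fewer than `κ.cof` non-stationary sets: their union is non-stationary -/
theorem not_stat_union {κ γ : Ordinal.{0}} (hκ : ℵ₀ < κ.cof) (hγ : γ.card < κ.cof)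
    {A : Ordinal.{0} → Set Ordinal.{0}} (h : ∀ ξ < γ, ¬ Stat (A ξ) κ)
    {T : Set Ordinal.{0}} (hT : ∀ a ∈ T, a < κ → ∃ ξ < γ, a ∈ A ξ) : ¬ Stat T κ := by
  intro hS
  have hch : ∀ i : γ.ToType, ∃ D, Club D κ ∧
      ∀ a ∈ A (Ordinal.ToType.mk.symm i).1, a ∈ D → ¬ a < κ := by
    intro i
    have := h (Ordinal.ToType.mk.symm i).1 (Ordinal.ToType.mk.symm i).2
    simp only [Stat] at this
    push Not at this
    obtain ⟨D, hD, hD'⟩ := this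
    exact ⟨D, hD, fun a ha haD => not_lt.mpr (hD' a ha haD)⟩
  choose D hD hD' using hch
  obtain ⟨a, h1, h2, h3⟩ := hS _ (Club.iInter' hκ (by rw [Cardinal.mk_toType]; exact hγ) hD)
  obtain ⟨ξ, hξ, h4⟩ := hT a h1 h3
  refine hD' (Ordinal.ToType.mk ⟨ξ, hξ⟩) a ?_ (Set.mem_iInter.mp h2 _) h3
  rw [OrderIso.symm_apply_apply]
  exact h4

theorem uu (h2 : StUD) : StUU := by
  intro τ A hcof hA hsub hat
  have hlim := isSuccLimit_of_cof hcof
  refine ⟨hod_UA h2 hA _, fun X hX => (mem_UA.1 hX).1, ?_, ?_, ?_, ?_⟩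
  · -- up
    intro X hX Y hY hXY
    rw [mem_UA] at hX ⊢
    exact ⟨hY, fun h => hX.2 (h.mono fun a ha _ => ⟨ha.1, fun h' => ha.2 (st_mono hXY h')⟩)⟩
  · -- ultra
    intro X hX
    obtain ⟨hd, hd'⟩ := diff_mem hX
    obtain ⟨hX1, hX2⟩ := mem_hodPow.1 hX
    rw [mem_UA, mem_UA]
    constructor
    · rintro ⟨-, h3⟩ ⟨-, h4⟩
      rcases stat_or hcof hat.1 (A := st X) with h5 | h5
      · exact h4 (h5.mono fun a ha hac => ⟨ha.1, fun h6 => (hd' a hac).1 h6 ha.2⟩)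
      · exact h3 h5
    · intro h3
      refine ⟨hX, fun h4 => ?_⟩
      apply h3
      refine ⟨hd, fun h5 => ?_⟩
      refine hat.2 X hX2 hX1 ⟨?_, h4⟩
      refine h5.mono fun a ha hac => ⟨ha.1, ?_⟩
      by_contra h6
      exact ha.2 ((hd' a hac).2 h6)
  · -- tail
    intro β hβ
    rw [mem_UA]
    refine ⟨ordSet_mem ?_ _, fun h => ?_⟩
    · exact (DP.rank_lt_ord 0 β).not.congr fun v => (not_lt (a := (v 0).rank) (b := β)).symm
    · obtain ⟨a, ha, h3, h4⟩ := h _ (club_Ioi hlim hβ)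
      have h5 : β ≤ a := le_of_lt h3
      exact ha.2 (mem_st_ordSet.2 ⟨h4, h5⟩)
  · -- complete
    intro γ hγ F hF hall
    have hcard : γ.card < τ.cof := Cardinal.lt_ord.mp hγ
    have hR : DP (fun v => (v 0).rank < γ ∧ (v 1).rank < τ ∧ (v 1).rank ∈ F (v 0).rank) :=
      (odRel_iff_DP _).1 (odRel_of_hod hF)
    have hDP : DPs {a | ∀ ξ, ξ < γ → (ξ < γ ∧ a < τ ∧ a ∈ F ξ)} := by
      change DP (fun v => ∀ ξ, ξ < γ → (ξ < γ ∧ (v 0).rank < τ ∧ (v 0).rank ∈ F ξ))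
      refine DP.allO (Q := fun ξ v => ξ < γ → (ξ < γ ∧ (v 0).rank < τ ∧ (v 0).rank ∈ F ξ)) ?_
      exact (DP.rank_lt_ord 0 γ).imp (hR.rename (fun n => if n = 0 then 0 else 1))
    have hB : ordSet τ {a | ∀ ξ < γ, a ∈ F ξ} =
        ordSet τ {a | ∀ ξ, ξ < γ → (ξ < γ ∧ a < τ ∧ a ∈ F ξ)} := by
      refine ext_st (ordSet_sub _ _) (ordSet_sub _ _) fun a => ?_
      rw [mem_st_ordSet, mem_st_ordSet]
      constructor
      · rintro ⟨h4, h5⟩
        exact ⟨h4, fun ξ hξ => ⟨hξ, h4, h5 ξ hξ⟩⟩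
      · rintro ⟨h4, h5⟩
        exact ⟨h4, fun ξ hξ => (h5 ξ hξ).2.2⟩
    rw [mem_UA]
    refine ⟨by rw [hB]; exact ordSet_mem hDP _, ?_⟩
    refine not_stat_union hcof hcard (A := fun ξ => {a | a ∈ A ∧ a ∉ st (ordSet τ (F ξ))})
      (fun ξ hξ => (mem_UA.1 (hall ξ hξ)).2) ?_
    rintro a ⟨ha, ha'⟩ haτ
    by_contra hcon
    push Not at hcon
    apply ha'
    refine mem_st_ordSet.2 ⟨haτ, fun ξ hξ => ?_⟩
    by_contra h6
    exact hcon ξ hξ ⟨ha, fun h7 => h6 (mem_st_ordSet.1 h7).2⟩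

end Pool.Agent.Helper48.HU.UU
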